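import Pool.Agent.H399.KnotI
import Pool.Agent.H399.KnotII

/-!
# Knotted involutive residuated lattices with equational bimonoidal subreducts

If the bimonoidal subreducts of a knotted variety of involutive commutative residuated lattices
form a variety, then the knotted variety is axiomatized by an inequality `x ≤ x ^ k`, `k ≥ 1`.

Proof outline.  The variety given by `x ^ m ≤ x ^ n` is axiomatized by `x ≤ x ^ k` when `m = 1`
or `m = n`.  In the other cases (`m ≥ 2`, `m ≠ n`) we construct a commutative monoid `M`, a set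
`N` and a doubled monoid `M'` with a set `N'` such that the algebra `G'` of closed sets of
`(M', N')` satisfies `x ^ m ≤ x ^ n`, a subalgebra of its bimonoidal reduct maps onto a subalgebra
`B` of the bimonoidal reduct of the algebra of closed sets of `(M, N)`, and `B` violates the
quasi-equation (valid in all subreducts)
`(∀ i : Fin n → Fin m, d * a_{i 1} * ... * a_{i n} ≤ c + b_{i 1} + ... + b_{i n}) →
  d * a_1 * ... * a_m ≤ c + b_1 + ... + b_m`.
-/

universe u

namespace Pool.Agent.Results.MP_2e5387_al.KnottedSubreducts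

open Pool.Agent.H399.Knot

theorem powLe_ne {m n : ℕ} (hm : 1 ≤ m) (hn : 1 ≤ n)
    (h : FormsVariety (IsSubreduct (PowLe.{u} m n))) : m = 1 ∨ m = n := by
  by_contra hcon
  push Not at hcon
  obtain ⟨h1, h2⟩ := hcon
  rcases lt_or_gt_of_ne h2 with h3 | h3
  · exact RegII.main (by omega) h3 h
  · exact RegI.main hn h3 h

theorem result (V : ICRLClass.{u}) (hV : IsKnotted V) (hF : FormsVariety (IsSubreduct V)) :
    ∃ k : ℕ, 1 ≤ k ∧ ∀ (A : Type u) [ICRL A], V A ↔ ∀ x : A, x ≤ x ^ k := by
  obtain ⟨m, n, hm, hn, hax⟩ := hV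
  have hVe : V = PowLe.{u} m n := by
    funext A inst
    exact propext (hax A)
  rw [hVe] at hF
  rcases powLe_ne hm hn hF with h1 | h1
  · subst h1
    refine ⟨n, hn, fun A _ => ?_⟩
    rw [hax A]
    simp only [pow_one]
  · subst h1
    refine ⟨1, le_rfl, fun A _ => ?_⟩
    rw [hax A]
    simp

end Pool.Agent.Results.MP_2e5387_al.KnottedSubreducts
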